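import Pool.Agent.Y298.GA.Stm
import Pool.Agent.Y79.CA.Pe

/-! Perturbation of finitely many iterates for slow families (`S_PE`). -/

set_option autoImplicit false

open Set Filter Metric MeasureTheory

namespace Pool.Agent.Y604.GA

open Pool.Agent.TH279.MD Pool.Agent.Y298.SH Pool.Agent.Y298.GA
open Pool.Agent.Y79.CA (pow_diff f_succ deriv_succ)

/-- The induction statement. -/
def Q (d N : ℕ) (C : ℝ) : Prop := 1 ≤ C ∧ ∀ (c₁ : ℂ) (r κ : ℝ) (u : ℂ) (T : ℝ)
  (h : ℂ → ℂ → ℂ), ‖c₁‖ ≤ 2 → 0 ≤ r → C * r ≤ 1 → Cv c₁ r κ u T h → ∀ n ≤ N,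
    ∀ w ∈ ball u T, ‖w‖ ≤ 4 → (∀ j < n, ‖GG d h j w‖ ≤ 4 ∨ ‖(f d c₁)^[j] w‖ ≤ 4) →
    DifferentiableAt ℂ (GG d h n) w ∧
    ‖GG d h n w - (f d c₁)^[n] w‖ ≤ C * r ∧
    ‖deriv (GG d h n) w - deriv ((f d c₁)^[n]) w‖ ≤ C * (r + κ) ∧
    ‖DD d h n w - deriv ((f d c₁)^[n]) w‖ ≤ C * r ∧ ‖deriv ((f d c₁)^[n]) w‖ ≤ C

theorem nonneg_κ {c₁ : ℂ} {r κ : ℝ} {u : ℂ} {T : ℝ} {h : ℂ → ℂ → ℂ} (H : Cv c₁ r κ u T h) {w : ℂ}
    (hw : w ∈ ball u T) : 0 ≤ κ :=
  (norm_nonneg _).trans (H.slow w hw 0 (by simp))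

theorem Q_zero (d : ℕ) : Q d 0 1 := by
  refine ⟨le_rfl, fun c₁ r κ u T h _ hr0 _ H n hn w hw _ _ => ?_⟩
  have hn0 : n = 0 := by omega
  subst hn0
  have hκ : 0 ≤ κ := nonneg_κ H hw
  have h1 : GG d h 0 = fun w => w := rfl
  have h3 : deriv ((f d c₁)^[0]) w = 1 := by
    rw [Function.iterate_zero, deriv_id]
  refine ⟨differentiableAt_id, ?_, ?_, ?_, ?_⟩
  · rw [h1, Function.iterate_zero, id, sub_self, norm_zero]
    positivity
  · rw [h1, h3, deriv_id'', sub_self, norm_zero]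
    positivity
  · rw [DD_zero, h3, sub_self, norm_zero]
    positivity
  · rw [h3, norm_one]

theorem Q_succ (d N : ℕ) {C : ℝ} (hQ : Q d N C) : ∃ C', Q d (N + 1) C' := by
  obtain ⟨hC, h⟩ := hQ
  have hC0 : 0 ≤ C := by linarith
  obtain ⟨K₁, hK₁, hp₁⟩ := pow_diff 5 (by norm_num) d
  obtain ⟨K₂, hK₂, hp₂⟩ := pow_diff 5 (by norm_num) (d - 1)
  set M : ℝ := d * 5 ^ (d - 1) with hM
  have hM0 : 0 ≤ M := by positivity
  set a1 : ℝ := K₁ * C + 1 with ha1
  set a2 : ℝ := d * (K₂ * C) * (C + 1) + M * C + (C + 1) with ha2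
  set a3 : ℝ := d * K₂ * (C * C + C) + M * C + (C + 1) + 1 with ha3
  have ha10 : 0 ≤ a1 := by positivity
  have ha20 : 0 ≤ a2 := by positivity
  have ha30 : 0 ≤ a3 := by positivity
  have hMC : 0 ≤ M * C := by positivity
  set C' : ℝ := C + a1 + a2 + a3 + M * C with hC'
  refine ⟨C', by linarith, fun c₁ r κ u T g hc hr0 hr H n hn w hw hw4 hor => ?_⟩
  have hκ : 0 ≤ κ := nonneg_κ H hw
  have hCr : C * r ≤ 1 := (mul_le_mul_of_nonneg_right (by linarith) hr0).trans hr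
  rcases Nat.lt_or_ge n (N + 1) with h0 | h0
  · obtain ⟨h1, h2, h3, h4, h5⟩ := h c₁ r κ u T g hc hr0 hCr H n (by omega) w hw hw4 hor
    have e1 : C * r ≤ C' * r := mul_le_mul_of_nonneg_right (by linarith) hr0
    have e2 : C * (r + κ) ≤ C' * (r + κ) :=
      mul_le_mul_of_nonneg_right (by linarith) (by linarith)
    exact ⟨h1, h2.trans e1, h3.trans e2, h4.trans e1, by linarith⟩
  have hn1 : n = N + 1 := by omega
  subst hn1
  -- the orbits stay in the ball of radius `5`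
  have hall : ∀ j ≤ N, DifferentiableAt ℂ (GG d g j) w ∧
      ‖GG d g j w - (f d c₁)^[j] w‖ ≤ C * r ∧
      ‖deriv (GG d g j) w - deriv ((f d c₁)^[j]) w‖ ≤ C * (r + κ) ∧
      ‖DD d g j w - deriv ((f d c₁)^[j]) w‖ ≤ C * r ∧ ‖deriv ((f d c₁)^[j]) w‖ ≤ C :=
    fun j hj => h c₁ r κ u T g hc hr0 hCr H j hj w hw hw4 fun i hi => hor i (by omega)
  have h5 : ∀ j ≤ N, ‖GG d g j w‖ ≤ 5 ∧ ‖(f d c₁)^[j] w‖ ≤ 5 := by
    intro j hj
    obtain ⟨-, h2, -⟩ := hall j hj
    have e1 : ‖GG d g j w‖ ≤ ‖GG d g j w - (f d c₁)^[j] w‖ + ‖(f d c₁)^[j] w‖ := by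
      have := norm_add_le (GG d g j w - (f d c₁)^[j] w) ((f d c₁)^[j] w)
      rwa [sub_add_cancel] at this
    have e2 : ‖(f d c₁)^[j] w‖ ≤ ‖GG d g j w - (f d c₁)^[j] w‖ + ‖GG d g j w‖ := by
      have := norm_sub_le (GG d g j w) (GG d g j w - (f d c₁)^[j] w)
      rw [sub_sub_cancel] at this
      linarith
    rcases hor j (by omega) with h6 | h6 <;> constructor <;> linarith
  have hball : ∀ j ≤ N, GG d g j w ∈ ball (0 : ℂ) 8 := by
    intro j hj
    rw [mem_ball_zero_iff]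
    linarith [(h5 j hj).1]
  obtain ⟨hd, h2, h3, h4, hD⟩ := hall N le_rfl
  obtain ⟨hx, hy⟩ := h5 N le_rfl
  have hz := hball N le_rfl
  set x : ℂ := GG d g N w with hxdef
  set y : ℂ := (f d c₁)^[N] w with hydef
  set D : ℂ := deriv ((f d c₁)^[N]) w with hDdef
  have hnear := H.near w hw x hz
  have hvert := H.vert w hw x hz
  have hslow := H.slow w hw x hz
  have hder := H.hasDeriv d hw hd hz
  have hpow1 : ‖x ^ d - y ^ d‖ ≤ K₁ * (C * r) := (hp₁ x y hx hy).trans (by gcongr)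
  have hpow2 : ‖x ^ (d - 1) - y ^ (d - 1)‖ ≤ K₂ * (C * r) := (hp₂ x y hx hy).trans (by gcongr)
  have hyM : (d : ℝ) * ‖y‖ ^ (d - 1) ≤ M := by
    rw [hM]
    gcongr
  have hDD : ‖DD d g N w‖ ≤ C + 1 := by
    have := norm_add_le (DD d g N w - D) D
    rw [sub_add_cancel] at this
    linarith
  have hGG : ‖deriv (GG d g N) w‖ ≤ C + C * (r + κ) := by
    have := norm_add_le (deriv (GG d g N) w - D) D
    rw [sub_add_cancel] at this
    linarith
  have hCr0 : 0 ≤ C * r := by positivity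
  refine ⟨hder.differentiableAt, ?_, ?_, ?_, ?_⟩
  · rw [GG_succ, f_succ]
    have e1 : x ^ d + g w x - (y ^ d + c₁) = (x ^ d - y ^ d) + (g w x - c₁) := by ring
    rw [e1]
    refine (norm_add_le _ _).trans ?_
    have e2 : a1 * r ≤ C' * r := mul_le_mul_of_nonneg_right (by linarith) hr0
    rw [ha1] at e2
    linarith
  · rw [hder.deriv, deriv_succ]
    have e1 : (d * x ^ (d - 1) + deriv (g w) x) * deriv (GG d g N) w +
        deriv (fun w' => g w' x) w - d * y ^ (d - 1) * D =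
        d * (x ^ (d - 1) - y ^ (d - 1)) * deriv (GG d g N) w +
        d * y ^ (d - 1) * (deriv (GG d g N) w - D) + deriv (g w) x * deriv (GG d g N) w +
        deriv (fun w' => g w' x) w := by ring
    rw [e1]
    refine (norm_add_le _ _).trans ?_
    have f1 : ‖d * (x ^ (d - 1) - y ^ (d - 1)) * deriv (GG d g N) w‖ ≤
        d * (K₂ * (C * r)) * (C + C * (r + κ)) := by
      rw [norm_mul, norm_mul, Complex.norm_natCast]
      gcongr
    have f1' : d * (K₂ * (C * r)) * (C + C * (r + κ)) ≤ d * K₂ * (C * C + C) * (r + κ) := by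
      have g1 : C * r * (C + C * (r + κ)) ≤ (C * C + C) * (r + κ) := by
        have g2 : C * r * (C * (r + κ)) ≤ 1 * (C * (r + κ)) :=
          mul_le_mul_of_nonneg_right hCr (by positivity)
        have g3 : 0 ≤ C * C * κ := by positivity
        nlinarith
      have g4 : d * (K₂ * (C * r)) * (C + C * (r + κ)) = d * K₂ * (C * r * (C + C * (r + κ))) := by
        ring
      rw [g4, mul_assoc (d * K₂)]
      gcongr
    have f2 : ‖d * y ^ (d - 1) * (deriv (GG d g N) w - D)‖ ≤ M * (C * (r + κ)) := by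
      rw [norm_mul, norm_mul, norm_pow, Complex.norm_natCast]
      gcongr
    have f3 : ‖deriv (g w) x * deriv (GG d g N) w‖ ≤ (C + 1) * (r + κ) := by
      rw [norm_mul]
      have g1 : ‖deriv (g w) x‖ * ‖deriv (GG d g N) w‖ ≤ r * (C + C * (r + κ)) := by
        gcongr
      have g2 : C * r * (r + κ) ≤ 1 * (r + κ) := mul_le_mul_of_nonneg_right hCr (by positivity)
      have g3 : 0 ≤ C * κ := by positivity
      nlinarith
    have f4 : ‖deriv (fun w' => g w' x) w‖ ≤ 1 * (r + κ) := by linarith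
    have f5 := norm_add_le (d * (x ^ (d - 1) - y ^ (d - 1)) * deriv (GG d g N) w +
      d * y ^ (d - 1) * (deriv (GG d g N) w - D)) (deriv (g w) x * deriv (GG d g N) w)
    have f6 := norm_add_le (d * (x ^ (d - 1) - y ^ (d - 1)) * deriv (GG d g N) w)
      (d * y ^ (d - 1) * (deriv (GG d g N) w - D))
    have f7 : a3 * (r + κ) ≤ C' * (r + κ) :=
      mul_le_mul_of_nonneg_right (by linarith) (by positivity)
    have f8 : a3 * (r + κ) = d * K₂ * (C * C + C) * (r + κ) + M * (C * (r + κ)) +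
        (C + 1) * (r + κ) + 1 * (r + κ) := by
      rw [ha3]
      ring
    linarith
  · rw [H.DD_succ d hw hball, deriv_succ]
    have e1 : (d * x ^ (d - 1) + deriv (g w) x) * DD d g N w - d * y ^ (d - 1) * D =
        d * (x ^ (d - 1) - y ^ (d - 1)) * DD d g N w + d * y ^ (d - 1) * (DD d g N w - D) +
        deriv (g w) x * DD d g N w := by ring
    rw [e1]
    refine (norm_add_le _ _).trans ?_
    have f1 : ‖d * (x ^ (d - 1) - y ^ (d - 1)) * DD d g N w‖ ≤
        d * (K₂ * (C * r)) * (C + 1) := by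
      rw [norm_mul, norm_mul, Complex.norm_natCast]
      gcongr
    have f2 : ‖d * y ^ (d - 1) * (DD d g N w - D)‖ ≤ M * (C * r) := by
      rw [norm_mul, norm_mul, norm_pow, Complex.norm_natCast]
      gcongr
    have f3 : ‖deriv (g w) x * DD d g N w‖ ≤ r * (C + 1) := by
      rw [norm_mul]
      gcongr
    have f6 := norm_add_le (d * (x ^ (d - 1) - y ^ (d - 1)) * DD d g N w)
      (d * y ^ (d - 1) * (DD d g N w - D))
    have f7 : a2 * r ≤ C' * r := mul_le_mul_of_nonneg_right (by linarith) hr0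
    have f8 : a2 * r = d * (K₂ * (C * r)) * (C + 1) + M * (C * r) + r * (C + 1) := by
      rw [ha2]
      ring
    linarith
  · rw [deriv_succ, norm_mul, norm_mul, norm_pow, Complex.norm_natCast]
    have e1 : (d : ℝ) * ‖y‖ ^ (d - 1) * ‖D‖ ≤ M * C := by gcongr
    linarith

theorem pe : S_PE := by
  intro d N _
  have key : ∀ N, ∃ C, Q d N C := by
    intro N
    induction N with
    | zero => exact ⟨1, Q_zero d⟩
    | succ N ih =>
      obtain ⟨C, hC⟩ := ih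
      exact Q_succ d N hC
  obtain ⟨C, hC, h⟩ := key N
  refine ⟨C, by linarith, fun c₁ r κ u T g hc hr0 hr H n hn w hw hw4 hor => ?_⟩
  obtain ⟨h1, h2, h3, h4, -⟩ := h c₁ r κ u T g hc hr0 hr H n hn w hw hw4 hor
  exact ⟨h1, h2, h3, h4⟩

end Pool.Agent.Y604.GA
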